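import Mathlib
import Pool.Agent.helper91.Main
import Pool.Agent.helper91.SqfreeDensity

/-!
# The counting function of `D_4` is asymptotic to `(1 - 6/π²) n`
-/

open Finset Filter Topology
open scoped Nat

namespace Pool.Agent.Results.MP_9a49ed_nt.D4Asymptotic

open Pool.Agent.helper91.D4

/-- `F k`: the positive integers `m` which are the largest of at most `k` distinct positive
integers whose factorials multiply to a perfect square. The finite set `S` is
`{a_1, …, a_r}` with `m = a_1 > a_2 > ⋯ > a_r ≥ 1` and `1 ≤ r ≤ k`. -/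
def F (k : ℕ) : Set ℕ :=
  {m | ∃ S : Finset ℕ, m ∈ S ∧ S.card ≤ k ∧ (∀ a ∈ S, 1 ≤ a ∧ a ≤ m) ∧ IsSquare (∏ a ∈ S, a !)}

/-- `D k = F k \ F (k-1)` -/
def D (k : ℕ) : Set ℕ := F k \ F (k - 1)

/-- the counting function of `D k` -/
noncomputable def count (k n : ℕ) : ℕ := {m : ℕ | m ∈ D k ∧ m ≤ n}.ncard

lemma peel {T : Finset ℕ} (h : T.Nonempty) :
    ∃ a T', a ∉ T' ∧ T = insert a T' ∧ (∀ x ∈ T', x < a) ∧ T'.card + 1 = T.card := by
  refine ⟨T.max' h, T.erase (T.max' h), notMem_erase _ _, (insert_erase (T.max'_mem h)).symm, ?_,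
    card_erase_add_one (T.max'_mem h)⟩
  intro x hx
  rw [mem_erase] at hx
  exact lt_of_le_of_ne (T.le_max' x hx.2) hx.1

lemma isSquare_of_mul {X Y : ℕ} (hY : Y ≠ 0) (h : IsSquare (X * (Y * Y))) : IsSquare X := by
  obtain ⟨Z, hZ⟩ := h
  have h1 : Y ^ 2 ∣ Z ^ 2 := ⟨X, by rw [sq Z, ← hZ]; ring⟩
  have h2 : Y ∣ Z := (Nat.pow_dvd_pow_iff (by norm_num)).mp h1
  obtain ⟨W, rfl⟩ := h2
  refine ⟨W, ?_⟩
  have h3 : 0 < Y * Y := Nat.mul_pos (Nat.pos_of_ne_zero hY) (Nat.pos_of_ne_zero hY)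
  apply Nat.eq_of_mul_eq_mul_right h3
  rw [hZ]; ring

lemma blk_zero_left (m : ℕ) : blk 0 m = m ! := by
  have := blk_mul_factorial 0 m
  simpa using this

lemma blk_sub {a m : ℕ} (h : a < m) : blk a (m - a) * a ! = m ! := by
  have := blk_mul_factorial a (m - a)
  rwa [Nat.add_sub_cancel' h.le] at this

lemma blk_one (a : ℕ) : blk a 1 = a + 1 := by
  have := blk_succ a 0
  simpa using this

/-- the shape of the solutions with at most four factorials -/
lemma cases_of_card_le_four {m : ℕ} {S : Finset ℕ} (hm : m ∈ S) (hc : S.card ≤ 4) (hS : ∀ a ∈ S, 1 ≤ a ∧ a ≤ m)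
    (hsq : IsSquare (∏ a ∈ S, a !)) :
    Bad m ∨ (S.card ≤ 3 ∧ IsSquare m) ∨ ∃ c, 1 ≤ c ∧ c < m ∧ IsSquare (m * c) := by
  obtain ⟨a₁, T₁, hn1, rfl, hlt1, hc1⟩ := peel ⟨m, hm⟩
  have hma : a₁ = m := by
    have h1 := (hS a₁ (mem_insert_self _ _)).2
    rw [mem_insert] at hm
    rcases hm with h | h
    · exact h.symm
    · have := hlt1 m h; omega
  subst hma
  have hm1 : 1 ≤ a₁ := (hS a₁ (mem_insert_self _ _)).1
  rw [prod_insert hn1] at hsq
  rcases T₁.eq_empty_or_nonempty with rfl | hT1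
  · left
    refine ⟨0, a₁, 0, 0, by omega, ⟨hm1, by omega, ?_⟩, by omega⟩
    rw [blk_zero_left, blk_zero]
    simpa using hsq
  obtain ⟨a₂, T₂, hn2, rfl, hlt2, hc2⟩ := peel hT1
  have h21 : a₂ < a₁ := hlt1 a₂ (mem_insert_self _ _)
  rw [prod_insert hn2] at hsq
  have e12 : a₁ ! = blk a₂ (a₁ - a₂) * a₂ ! := (blk_sub h21).symm
  rcases T₂.eq_empty_or_nonempty with rfl | hT2
  · left
    refine ⟨a₂, a₁ - a₂, 0, 0, by omega, ⟨by omega, by omega, ?_⟩, by omega⟩
    rw [blk_zero]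
    apply isSquare_of_mul (Nat.factorial_ne_zero a₂)
    rw [e12] at hsq
    simp only [prod_empty, mul_one] at hsq ⊢
    rwa [mul_assoc] at hsq
  obtain ⟨a₃, T₃, hn3, rfl, hlt3, hc3⟩ := peel hT2
  have h32 : a₃ < a₂ := hlt2 a₃ (mem_insert_self _ _)
  have ha3 : 1 ≤ a₃ := (hS a₃ (by simp)).1
  rw [prod_insert hn3] at hsq
  rcases T₃.eq_empty_or_nonempty with rfl | hT3
  · have hsq' : IsSquare (blk a₂ (a₁ - a₂) * blk 0 a₃) := by
      apply isSquare_of_mul (Nat.factorial_ne_zero a₂)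
      rw [blk_zero_left]
      rw [e12] at hsq
      simp only [prod_empty, mul_one] at hsq
      have e : blk a₂ (a₁ - a₂) * a₃ ! * (a₂ ! * a₂ !) = blk a₂ (a₁ - a₂) * a₂ ! * (a₂ ! * a₃ !) := by ring
      rw [e]; exact hsq
    by_cases hne : a₁ - a₂ = 1 ∧ a₃ = 1
    · right; left
      refine ⟨by rw [← hc1, ← hc2, ← hc3, card_empty], ?_⟩
      rw [hne.1, hne.2, blk_one, blk_zero_left] at hsq'
      have e : a₂ + 1 = a₁ := by omega
      rw [e] at hsq'
      simpa using hsq'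
    · left
      exact ⟨a₂, a₁ - a₂, 0, a₃, by omega, ⟨by omega, by omega, hsq'⟩, hne⟩
  obtain ⟨a₄, T₄, hn4, rfl, hlt4, hc4⟩ := peel hT3
  have h43 : a₄ < a₃ := hlt3 a₄ (mem_insert_self _ _)
  rw [prod_insert hn4] at hsq
  have hT4 : T₄ = ∅ := by rw [← Finset.card_eq_zero]; omega
  subst hT4
  have e34 : a₃ ! = blk a₄ (a₃ - a₄) * a₄ ! := (blk_sub h43).symm
  have hsq' : IsSquare (blk a₂ (a₁ - a₂) * blk a₄ (a₃ - a₄)) := by
    apply isSquare_of_mul (mul_ne_zero (Nat.factorial_ne_zero a₂) (Nat.factorial_ne_zero a₄))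
    rw [e12, e34] at hsq
    simp only [prod_empty, mul_one] at hsq
    have e : blk a₂ (a₁ - a₂) * blk a₄ (a₃ - a₄) * (a₂ ! * a₄ ! * (a₂ ! * a₄ !)) =
      blk a₂ (a₁ - a₂) * a₂ ! * (a₂ ! * (blk a₄ (a₃ - a₄) * a₄ ! * a₄ !)) := by ring
    rw [e]; exact hsq
  by_cases hne : a₁ - a₂ = 1 ∧ a₃ - a₄ = 1
  · right; right
    refine ⟨a₃, ha3, by omega, ?_⟩
    rw [hne.1, hne.2, blk_one, blk_one] at hsq'
    have e : a₂ + 1 = a₁ := by omega
    have e' : a₄ + 1 = a₃ := by omega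
    rwa [e, e'] at hsq'
  · left
    exact ⟨a₂, a₁ - a₂, a₄, a₃ - a₄, by omega, ⟨by omega, by omega, hsq'⟩, hne⟩

lemma not_isSquare_mul {m c : ℕ} (hm : Squarefree m) (hc : 1 ≤ c) (hcm : c < m) : ¬ IsSquare (m * c) := by
  intro hsq
  have h1 : m ∣ c := by
    rw [← Nat.factorization_prime_le_iff_dvd hm.ne_zero (by omega)]
    intro p _
    have h2 := even_of_isSquare hsq p
    rw [Nat.factorization_mul hm.ne_zero (by omega), Finsupp.add_apply] at h2
    have h3 := hm.natFactorization_le_one p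
    obtain ⟨r, hr⟩ := h2
    omega
  have := Nat.le_of_dvd (by omega) h1
  omega

/-- For at most three factorials the third alternative does not occur. -/
lemma mem_F_three {m : ℕ} (h : m ∈ F 3) : Bad m ∨ IsSquare m := by
  obtain ⟨S, hm, hc, hS, hsq⟩ := h
  obtain ⟨a₁, T₁, hn1, rfl, hlt1, hc1⟩ := peel ⟨m, hm⟩
  have hma : a₁ = m := by
    have h1 := (hS a₁ (mem_insert_self _ _)).2
    rw [mem_insert] at hm
    rcases hm with h | h
    · exact h.symm
    · have := hlt1 m h; omega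
  subst hma
  have hm1 : 1 ≤ a₁ := (hS a₁ (mem_insert_self _ _)).1
  rw [prod_insert hn1] at hsq
  rcases T₁.eq_empty_or_nonempty with rfl | hT1
  · left
    refine ⟨0, a₁, 0, 0, by omega, ⟨hm1, by omega, ?_⟩, by omega⟩
    rw [blk_zero_left, blk_zero]
    simpa using hsq
  obtain ⟨a₂, T₂, hn2, rfl, hlt2, hc2⟩ := peel hT1
  have h21 : a₂ < a₁ := hlt1 a₂ (mem_insert_self _ _)
  rw [prod_insert hn2] at hsq
  have e12 : a₁ ! = blk a₂ (a₁ - a₂) * a₂ ! := (blk_sub h21).symm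
  rcases T₂.eq_empty_or_nonempty with rfl | hT2
  · left
    refine ⟨a₂, a₁ - a₂, 0, 0, by omega, ⟨by omega, by omega, ?_⟩, by omega⟩
    rw [blk_zero]
    apply isSquare_of_mul (Nat.factorial_ne_zero a₂)
    rw [e12] at hsq
    simp only [prod_empty, mul_one] at hsq ⊢
    rwa [mul_assoc] at hsq
  obtain ⟨a₃, T₃, hn3, rfl, hlt3, hc3⟩ := peel hT2
  have h32 : a₃ < a₂ := hlt2 a₃ (mem_insert_self _ _)
  rw [prod_insert hn3] at hsq
  have hT3 : T₃ = ∅ := by rw [← Finset.card_eq_zero]; omega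
  subst hT3
  have hsq' : IsSquare (blk a₂ (a₁ - a₂) * blk 0 a₃) := by
    apply isSquare_of_mul (Nat.factorial_ne_zero a₂)
    rw [blk_zero_left]
    rw [e12] at hsq
    simp only [prod_empty, mul_one] at hsq
    have e : blk a₂ (a₁ - a₂) * a₃ ! * (a₂ ! * a₂ !) = blk a₂ (a₁ - a₂) * a₂ ! * (a₂ ! * a₃ !) := by ring
    rw [e]; exact hsq
  by_cases hne : a₁ - a₂ = 1 ∧ a₃ = 1
  · right
    rw [hne.1, hne.2, blk_one, blk_zero_left] at hsq'
    have e : a₂ + 1 = a₁ := by omega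
    rw [e] at hsq'
    simpa using hsq'
  · left
    exact ⟨a₂, a₁ - a₂, 0, a₃, by omega, ⟨by omega, by omega, hsq'⟩, hne⟩

lemma mem_F_four {m : ℕ} (h : m ∈ F 4) (hsf : Squarefree m) : Bad m ∨ IsSquare m := by
  obtain ⟨S, hm, hc, hS, hsq⟩ := h
  rcases cases_of_card_le_four hm hc hS hsq with h1 | ⟨_, h1⟩ | ⟨c, hc1, hc2, hc3⟩
  · exact Or.inl h1
  · exact Or.inr h1
  · exact absurd hc3 (not_isSquare_mul hsf hc1 hc2)

/-- an integer that is neither squarefree nor a square lies in `F 4` -/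
lemma mem_F_four_of_not_squarefree {m : ℕ} (hm : 1 ≤ m) (h1 : ¬ Squarefree m) (h2 : ¬ IsSquare m) : m ∈ F 4 := by
  obtain ⟨w, t, htw, hw⟩ := Nat.sq_mul_squarefree m
  have ht0 : t ≠ 0 := by rintro rfl; simp at htw; omega
  have ht1 : t ≠ 1 := by rintro rfl; apply h1; rw [← htw]; simpa using hw
  have hw0 : w ≠ 0 := hw.ne_zero
  have hw1 : w ≠ 1 := by rintro rfl; apply h2; exact ⟨t, by rw [← htw]; ring⟩
  have ht2 : 2 ≤ t := by omega
  have hw2 : 2 ≤ w := by omega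
  have h4 : 4 * w ≤ m := by
    rw [← htw]
    have : 2 ^ 2 ≤ t ^ 2 := Nat.pow_le_pow_left ht2 2
    nlinarith
  refine ⟨{m, m - 1, w, w - 1}, by simp, Finset.card_le_four, ?_, ?_⟩
  · intro a ha
    simp only [mem_insert, mem_singleton] at ha
    rcases ha with rfl | rfl | rfl | rfl <;> omega
  · have n1 : m ∉ ({m - 1, w, w - 1} : Finset ℕ) := by
      simp only [mem_insert, mem_singleton]; omega
    have n2 : m - 1 ∉ ({w, w - 1} : Finset ℕ) := by
      simp only [mem_insert, mem_singleton]; omega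
    have n3 : w ∉ ({w - 1} : Finset ℕ) := by
      simp only [mem_singleton]; omega
    rw [prod_insert n1, prod_insert n2, prod_insert n3, prod_singleton]
    refine ⟨t * w * (m - 1)! * (w - 1)!, ?_⟩
    have e1 : m ! = m * (m - 1)! := (Nat.mul_factorial_pred (by omega)).symm
    have e2 : w ! = w * (w - 1)! := (Nat.mul_factorial_pred (by omega)).symm
    rw [e1, e2]
    nth_rewrite 1 [← htw]
    ring

lemma dz_isSquare : DZ (fun m => IsSquare m) := by
  apply DZ.of_gaps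
  intro g
  refine ⟨g * g + 1, ?_⟩
  rintro a a' ⟨x, rfl⟩ ⟨y, rfl⟩ h1 h2
  have hxg : g ≤ x := by
    by_contra hlt
    push Not at hlt
    have : x * x ≤ g * g := Nat.mul_le_mul hlt.le hlt.le
    omega
  have hxy : x < y := by
    by_contra hge
    push Not at hge
    have : y * y ≤ x * x := Nat.mul_le_mul hge hge
    omega
  have : (x + 1) * (x + 1) ≤ y * y := Nat.mul_le_mul hxy hxy
  nlinarith

/-- **`D_4(n) ∼ (1 - 6/π²) n`.** -/
theorem result : Tendsto (fun n : ℕ => (count 4 n : ℝ) / n) atTop (𝓝 (1 - 6 / Real.pi ^ 2)) := by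
  classical
  have hcount : ∀ n, count 4 n = cnt (fun m => m ∈ D 4) n := by
    intro n
    unfold count
    rw [cnt_eq, ← Set.ncard_coe_finset]
    congr 1
    ext m
    simp only [Set.mem_ofPred_eq, coe_filter, mem_Ioc]
    constructor
    · rintro ⟨h1, h2⟩
      obtain ⟨S, hm, _, hS, _⟩ := h1.1
      exact ⟨⟨(hS m hm).1, h2⟩, h1⟩
    · rintro ⟨⟨_, h2⟩, h1⟩
      exact ⟨h1, h2⟩
  have hdz : DZ (fun m => Bad m ∨ IsSquare m) := bad_density_zero.or dz_isSquare
  set E : ℕ → Prop := fun m => Bad m ∨ IsSquare m with hE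
  have h1 : ∀ n, cnt (fun m => m ∈ D 4) n ≤ cnt (fun m => ¬ Squarefree m) n + cnt E n := by
    intro n
    refine (cnt_mono ?_).trans (cnt_or (fun m => ¬ Squarefree m) E n)
    intro m _ _ hm
    by_cases hsf : Squarefree m
    · exact Or.inr (mem_F_four hm.1 hsf)
    · exact Or.inl hsf
  have h2 : ∀ n, cnt (fun m => ¬ Squarefree m) n ≤ cnt (fun m => m ∈ D 4) n + cnt E n := by
    intro n
    refine (cnt_mono ?_).trans (cnt_or (fun m => m ∈ D 4) E n)
    intro m hm0 _ hm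
    by_cases hsq : IsSquare m
    · exact Or.inr (Or.inr hsq)
    · by_cases h3 : m ∈ F 3
      · exact Or.inr (mem_F_three h3)
      · exact Or.inl ⟨mem_F_four_of_not_squarefree hm0 hm hsq, h3⟩
  have h3 : ∀ n, (cnt (fun m => ¬ Squarefree m) n : ℝ) = n - (((Icc 1 n).filter Squarefree).card : ℝ) := by
    intro n
    have e1 : Icc 1 n = Ioc 0 n := by ext x; simp only [mem_Icc, mem_Ioc]; omega
    have e2 := Finset.card_filter_add_card_filter_not (s := Ioc 0 n) (fun m => Squarefree m)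
    rw [Nat.card_Ioc] at e2
    rw [cnt_eq, e1]
    have e3 : (((Ioc 0 n).filter Squarefree).card : ℝ) + (((Ioc 0 n).filter (fun m => ¬ Squarefree m)).card : ℝ) = n := by
      exact_mod_cast e2
    linarith
  have hE0 : Tendsto (fun n : ℕ => (cnt E n : ℝ) / n) atTop (𝓝 0) := by
    rw [Metric.tendsto_atTop]
    intro ε hε
    obtain ⟨n₀, hn₀⟩ := hdz (ε / 2) (by positivity)
    refine ⟨n₀ + 1, fun n hn => ?_⟩
    have hn0 : (0:ℝ) < n := by exact_mod_cast (by omega : 0 < n)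
    rw [Real.dist_eq, sub_zero, abs_of_nonneg (by positivity)]
    have h4 := hn₀ n (by omega)
    have h5 : (cnt E n : ℝ) / n ≤ ε / 2 := by rw [div_le_iff₀ hn0]; exact h4
    linarith
  have hN : Tendsto (fun n : ℕ => (cnt (fun m => ¬ Squarefree m) n : ℝ) / n) atTop (𝓝 (1 - 6 / Real.pi ^ 2)) := by
    have h4 := (tendsto_const_nhds (x := (1:ℝ))).sub Pool.Agent.helper91.SqfreeDensity.sqfree_density
    refine h4.congr' ?_
    filter_upwards [eventually_ge_atTop 1] with n hn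
    have hn0 : (0:ℝ) < n := by exact_mod_cast hn
    rw [h3, sub_div, div_self hn0.ne']
  have hlow : Tendsto (fun n : ℕ => (cnt (fun m => ¬ Squarefree m) n : ℝ) / n - (cnt E n : ℝ) / n) atTop
      (𝓝 (1 - 6 / Real.pi ^ 2)) := by
    have := hN.sub hE0
    rwa [sub_zero] at this
  have hup : Tendsto (fun n : ℕ => (cnt (fun m => ¬ Squarefree m) n : ℝ) / n + (cnt E n : ℝ) / n) atTop
      (𝓝 (1 - 6 / Real.pi ^ 2)) := by
    have := hN.add hE0
    rwa [add_zero] at this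
  refine tendsto_of_tendsto_of_tendsto_of_le_of_le hlow hup ?_ ?_
  · intro n
    show (cnt (fun m => ¬ Squarefree m) n : ℝ) / n - (cnt E n : ℝ) / n ≤ (count 4 n : ℝ) / n
    rw [hcount, ← sub_div]
    apply div_le_div_of_nonneg_right _ (Nat.cast_nonneg n)
    have : (cnt (fun m => ¬ Squarefree m) n : ℝ) ≤ cnt (fun m => m ∈ D 4) n + cnt E n := by exact_mod_cast h2 n
    linarith
  · intro n
    show (count 4 n : ℝ) / n ≤ (cnt (fun m => ¬ Squarefree m) n : ℝ) / n + (cnt E n : ℝ) / n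
    rw [hcount, ← add_div]
    apply div_le_div_of_nonneg_right _ (Nat.cast_nonneg n)
    exact_mod_cast h1 n

end Pool.Agent.Results.MP_9a49ed_nt.D4Asymptotic
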